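import Mathlib

set_option autoImplicit false

/-! Numbers which are very well approximable by rational numbers on a sequence of scales: they form
a field. -/

namespace Pool.Agent.L0h92.NF

open Filter

/-- the numerator and the denominator of `q` are at most `H` in absolute value -/
def HtLe (H : ℝ) (q : ℚ) : Prop := (|q.num| : ℝ) ≤ H ∧ (q.den : ℝ) ≤ H

/-- `x` is within `ε` of a rational number of height at most `H` -/
def Near (H ε x : ℝ) : Prop := ∃ r : ℚ, HtLe H r ∧ |x - r| ≤ ε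

/-- approximable -/
def Apr (κ : ℝ) (T : ℕ → ℝ) (y : ℝ) : Prop :=
  ∃ A : ℝ, ∀ E : ℝ, ∀ᶠ n in atTop, Near (Real.exp (A * T n)) (Real.exp (-(E * T n ^ κ))) y

theorem HtLe.mono {H H' : ℝ} {q : ℚ} (h : HtLe H q) (hH : H ≤ H') : HtLe H' q :=
  ⟨h.1.trans hH, h.2.trans hH⟩

theorem Near.mono {H H' ε ε' x : ℝ} (h : Near H ε x) (hH : H ≤ H') (hε : ε ≤ ε') :
    Near H' ε' x := by
  obtain ⟨r, hr, h2⟩ := h
  exact ⟨r, hr.mono hH, h2.trans hε⟩

theorem HtLe.of_div {H : ℝ} (a b : ℤ) (hb : b ≠ 0) (ha : (|(a : ℝ)|) ≤ H) (hb' : |(b : ℝ)| ≤ H) :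
    HtLe H ((a : ℚ) / b) := by
  have h1 : (a : ℚ) / b = Rat.divInt a b := (Rat.divInt_eq_div a b).symm
  rw [h1]
  constructor
  · by_cases h0 : a = 0
    · rw [h0]
      have : (Rat.divInt 0 b).num = 0 := by simp
      rw [this]
      simpa using (abs_nonneg _).trans ha
    · have h2 := Rat.num_dvd a hb
      have h3 : |(Rat.divInt a b).num| ≤ |a| :=
        Int.le_of_dvd (abs_pos.2 h0) ((abs_dvd_abs _ _).2 h2)
      have h4 : ((|(Rat.divInt a b).num| : ℤ) : ℝ) ≤ ((|a| : ℤ) : ℝ) := by exact_mod_cast h3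
      rw [Int.cast_abs, Int.cast_abs] at h4
      exact h4.trans ha
  · have h2 := Rat.den_dvd a b
    have h3 : ((Rat.divInt a b).den : ℤ) ≤ |b| :=
      Int.le_of_dvd (abs_pos.2 hb) ((dvd_abs _ _).2 h2)
    have h4 : (((Rat.divInt a b).den : ℤ) : ℝ) ≤ ((|b| : ℤ) : ℝ) := by exact_mod_cast h3
    rw [Int.cast_abs] at h4
    push_cast at h4
    exact h4.trans hb'

theorem HtLe.nonneg {H : ℝ} {q : ℚ} (h : HtLe H q) : 0 ≤ H := (abs_nonneg _).trans h.1

theorem HtLe.add {H K : ℝ} {r s : ℚ} (hr : HtLe H r) (hs : HtLe K s) :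
    HtLe (2 * (H * K)) (r + s) := by
  have hH := hr.nonneg
  have hK := hs.nonneg
  have e : r + s = ((r.num * s.den + s.num * r.den : ℤ) : ℚ) / ((r.den * s.den : ℤ) : ℚ) := by
    have h1 : (r.den : ℚ) ≠ 0 := by exact_mod_cast r.den_nz
    have h2 : (s.den : ℚ) ≠ 0 := by exact_mod_cast s.den_nz
    conv_lhs => rw [← Rat.num_div_den r, ← Rat.num_div_den s]
    push_cast
    field_simp
  rw [e]
  refine HtLe.of_div _ _ ?_ ?_ ?_
  · have h1 := r.den_nz
    have h2 := s.den_nz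
    exact_mod_cast mul_ne_zero h1 h2
  · push_cast
    refine (abs_add_le _ _).trans ?_
    rw [abs_mul, abs_mul, Nat.abs_cast, Nat.abs_cast]
    have h1 := mul_le_mul hr.1 hs.2 (Nat.cast_nonneg _) hH
    have h2 := mul_le_mul hs.1 hr.2 (Nat.cast_nonneg _) hK
    nlinarith
  · push_cast
    rw [abs_mul, Nat.abs_cast, Nat.abs_cast]
    have h1 := mul_le_mul hr.2 hs.2 (Nat.cast_nonneg _) hH
    nlinarith [mul_nonneg hH hK]

theorem HtLe.mul {H K : ℝ} {r s : ℚ} (hr : HtLe H r) (hs : HtLe K s) :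
    HtLe (H * K) (r * s) := by
  have hH := hr.nonneg
  have hK := hs.nonneg
  have e : r * s = ((r.num * s.num : ℤ) : ℚ) / ((r.den * s.den : ℤ) : ℚ) := by
    have h1 : (r.den : ℚ) ≠ 0 := by exact_mod_cast r.den_nz
    have h2 : (s.den : ℚ) ≠ 0 := by exact_mod_cast s.den_nz
    conv_lhs => rw [← Rat.num_div_den r, ← Rat.num_div_den s]
    push_cast
    field_simp
  rw [e]
  refine HtLe.of_div _ _ ?_ ?_ ?_
  · have h1 := r.den_nz
    have h2 := s.den_nz
    exact_mod_cast mul_ne_zero h1 h2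
  · push_cast
    rw [abs_mul]
    exact mul_le_mul hr.1 hs.1 (abs_nonneg _) hH
  · push_cast
    rw [abs_mul, Nat.abs_cast, Nat.abs_cast]
    exact mul_le_mul hr.2 hs.2 (Nat.cast_nonneg _) hH

theorem HtLe.inv {H : ℝ} {r : ℚ} (hr : HtLe H r) (h0 : r ≠ 0) : HtLe H r⁻¹ := by
  have e : r⁻¹ = ((r.den : ℤ) : ℚ) / ((r.num : ℤ) : ℚ) := by
    conv_lhs => rw [← Rat.num_div_den r]
    rw [inv_div]
    push_cast
    rfl
  rw [e]
  refine HtLe.of_div _ _ (Rat.num_ne_zero.2 h0) ?_ hr.1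
  push_cast
  rw [Nat.abs_cast]
  exact hr.2

/-- exponentials -/
theorem ev_exp {f : ℕ → ℝ} (hf : Tendsto f atTop atTop) (K B : ℝ) :
    ∀ᶠ n in atTop, K * Real.exp (B * f n) ≤ Real.exp ((B + 1) * f n) := by
  filter_upwards [hf.eventually_ge_atTop K] with n hn
  have h1 : Real.exp ((B + 1) * f n) = Real.exp (f n) * Real.exp (B * f n) := by
    rw [← Real.exp_add]
    ring_nf
  rw [h1]
  refine mul_le_mul_of_nonneg_right ?_ (Real.exp_pos _).le
  have := Real.add_one_le_exp (f n)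
  linarith

variable {κ : ℝ} {T : ℕ → ℝ} (hκ : 0 < κ) (hT : Tendsto T atTop atTop)

include hT hκ

theorem ev_err (K E : ℝ) : ∀ᶠ n in atTop, K * Real.exp (-((E + 1) * T n ^ κ)) ≤
    Real.exp (-(E * T n ^ κ)) := by
  have h1 := ev_exp ((tendsto_rpow_atTop hκ).comp hT) K (-(E + 1))
  filter_upwards [h1] with n hn
  simp only [Function.comp_apply] at hn
  rw [← neg_mul]
  refine hn.trans (le_of_eq ?_)
  congr 1
  ring

theorem Apr.rat (q : ℚ) : Apr κ T q := by
  refine ⟨1, fun E => ?_⟩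
  filter_upwards [hT.eventually_ge_atTop |(q.num : ℝ)|, hT.eventually_ge_atTop (q.den : ℝ)]
    with n h1 h2
  have h3 := Real.add_one_le_exp (T n)
  refine ⟨q, ⟨?_, ?_⟩, ?_⟩
  · rw [one_mul]
    linarith
  · rw [one_mul]
    linarith
  · rw [sub_self, abs_zero]
    exact (Real.exp_pos _).le

theorem Apr.add {x y : ℝ} (hx : Apr κ T x) (hy : Apr κ T y) : Apr κ T (x + y) := by
  obtain ⟨A, hA⟩ := hx
  obtain ⟨B, hB⟩ := hy
  refine ⟨A + B + 1, fun E => ?_⟩
  filter_upwards [hA (E + 1), hB (E + 1), ev_exp hT 2 (A + B), ev_err hκ hT 2 E]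
    with n h1 h2 h3 h4
  obtain ⟨r, hr, hxr⟩ := h1
  obtain ⟨s, hs, hys⟩ := h2
  refine ⟨r + s, (hr.add hs).mono ?_, ?_⟩
  · rw [← Real.exp_add, ← add_mul]
    exact h3
  · push_cast
    have e : x + y - (r + s) = (x - r) + (y - s) := by ring
    rw [e]
    refine (abs_add_le _ _).trans ?_
    linarith

theorem Apr.mul {x y : ℝ} (hx : Apr κ T x) (hy : Apr κ T y) : Apr κ T (x * y) := by
  obtain ⟨A, hA⟩ := hx
  obtain ⟨B, hB⟩ := hy
  refine ⟨A + B, fun E => ?_⟩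
  have h5 : ∀ᶠ n in atTop, Real.exp (-((E + 1) * T n ^ κ)) ≤ Real.exp (-(E * T n ^ κ)) := by
    filter_upwards [ev_err hκ hT 1 E] with n hn
    rwa [one_mul] at hn
  filter_upwards [hA (E + 1), hB (|E| + 1), ev_err hκ hT (|x| + |y| + 1) E,
    hT.eventually_ge_atTop 0] with n h1 h2 h4 h6
  obtain ⟨r, hr, hxr⟩ := h1
  obtain ⟨s, hs, hys⟩ := h2
  have hTκ : 0 ≤ T n ^ κ := Real.rpow_nonneg h6 κ
  have hys1 : |y - s| ≤ Real.exp (-((E + 1) * T n ^ κ)) := by
    refine hys.trans (Real.exp_le_exp.2 ?_)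
    have := le_abs_self E
    nlinarith
  have hys2 : |y - s| ≤ 1 := by
    refine hys.trans (Real.exp_le_one_iff.2 ?_)
    have := abs_nonneg E
    nlinarith
  refine ⟨r * s, (hr.mul hs).mono ?_, ?_⟩
  · rw [← Real.exp_add, ← add_mul]
  · push_cast
    have e : x * y - r * s = x * (y - s) + s * (x - r) := by ring
    have hs' : |(s : ℝ)| ≤ |y| + 1 := by
      have e2 : (s : ℝ) = y - (y - s) := by ring
      calc |(s : ℝ)| = |y - (y - s)| := by rw [← e2]
        _ ≤ |y| + |y - s| := abs_sub _ _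
        _ ≤ |y| + 1 := by linarith
    rw [e]
    calc |x * (y - s) + s * (x - r)| ≤ |x * (y - s)| + |s * (x - r)| := abs_add_le _ _
      _ = |x| * |y - s| + |(s : ℝ)| * |x - r| := by rw [abs_mul, abs_mul]
      _ ≤ |x| * Real.exp (-((E + 1) * T n ^ κ)) +
          (|y| + 1) * Real.exp (-((E + 1) * T n ^ κ)) := by
          gcongr
      _ = (|x| + |y| + 1) * Real.exp (-((E + 1) * T n ^ κ)) := by ring
      _ ≤ _ := h4

theorem Apr.inv {x : ℝ} (hx : Apr κ T x) : Apr κ T x⁻¹ := by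
  by_cases h0 : x = 0
  · rw [h0, inv_zero]
    simpa using Apr.rat hκ hT 0
  obtain ⟨A, hA⟩ := hx
  refine ⟨A, fun E => ?_⟩
  have hx0 : 0 < |x| := abs_pos.2 h0
  filter_upwards [hA (|E| + 1), ev_err hκ hT (2 / |x| ^ 2) E, ev_err hκ hT (2 / |x|) 0,
    hT.eventually_ge_atTop 0] with n h1 h2 h3 h6
  obtain ⟨r, hr, hxr⟩ := h1
  have hTκ : 0 ≤ T n ^ κ := Real.rpow_nonneg h6 κ
  have hd1 : |x - r| ≤ Real.exp (-((E + 1) * T n ^ κ)) := by
    refine hxr.trans (Real.exp_le_exp.2 ?_)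
    have := le_abs_self E
    nlinarith
  have hd2 : |x - r| ≤ Real.exp (-((0 + 1) * T n ^ κ)) := by
    refine hxr.trans (Real.exp_le_exp.2 ?_)
    have := abs_nonneg E
    nlinarith
  have hd3 : |x - r| ≤ |x| / 2 := by
    rw [zero_mul, neg_zero, Real.exp_zero] at h3
    have h7 : Real.exp (-((0 + 1) * T n ^ κ)) ≤ |x| / 2 := by
      rw [div_mul_eq_mul_div, div_le_one hx0] at h3
      rw [le_div_iff₀ two_pos, mul_comm]
      exact h3
    exact hd2.trans h7
  have hr2 : |x| / 2 ≤ |(r : ℝ)| := by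
    have := abs_sub_abs_le_abs_sub x (r : ℝ)
    linarith
  have hr0 : (r : ℝ) ≠ 0 := by
    intro h
    rw [h, abs_zero] at hr2
    linarith
  refine ⟨r⁻¹, hr.inv (by exact_mod_cast hr0), ?_⟩
  push_cast
  have e : x⁻¹ - (r : ℝ)⁻¹ = -(x - r) / (x * r) := by
    field_simp
    ring
  rw [e, abs_div, abs_neg, abs_mul]
  calc |x - r| / (|x| * |(r : ℝ)|)
      ≤ Real.exp (-((E + 1) * T n ^ κ)) / (|x| * (|x| / 2)) := by gcongr
    _ = 2 / |x| ^ 2 * Real.exp (-((E + 1) * T n ^ κ)) := by field_simp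
    _ ≤ _ := h2

/-- the field of the approximable numbers -/
noncomputable def FF : IntermediateField ℚ ℝ where
  carrier := {x | Apr κ T x}
  mul_mem' := fun hx hy => Apr.mul hκ hT hx hy
  one_mem' := by simpa using Apr.rat hκ hT 1
  add_mem' := fun hx hy => Apr.add hκ hT hx hy
  zero_mem' := by simpa using Apr.rat hκ hT 0
  algebraMap_mem' := fun r => by simpa using Apr.rat hκ hT r
  inv_mem' := fun _ hx => Apr.inv hκ hT hx

end Pool.Agent.L0h92.NF
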