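import Mathlib

set_option autoImplicit false

/-! Subgroups of the powers of one rational number. -/

namespace Pool.Agent.L0h92.NF

theorem cyclic_of_powers (S : Set ℚ) (hone : (1 : ℚ) ∈ S) (hmul : ∀ a ∈ S, ∀ b ∈ S, a * b ∈ S)
    (hinv : ∀ a ∈ S, a⁻¹ ∈ S) {m : ℚ} (hm : 0 < m) (h : ∀ a ∈ S, ∃ k : ℤ, a = m ^ k) :
    ∃ m' : ℚ, 0 < m' ∧ ∀ a : ℚ, a ∈ S ↔ ∃ k : ℤ, a = m' ^ k := by
  let G : AddSubgroup ℤ :=
    { carrier := {k | m ^ k ∈ S}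
      add_mem' := by
        intro a b ha hb
        show m ^ (a + b) ∈ S
        rw [zpow_add₀ hm.ne']
        exact hmul _ ha _ hb
      zero_mem' := by
        show m ^ (0 : ℤ) ∈ S
        rw [zpow_zero]
        exact hone
      neg_mem' := by
        intro a ha
        show m ^ (-a) ∈ S
        rw [zpow_neg]
        exact hinv _ ha }
  obtain ⟨g, hg⟩ := Int.subgroup_cyclic G
  have hG : ∀ k : ℤ, m ^ k ∈ S ↔ ∃ n : ℤ, n • g = k := by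
    intro k
    rw [← AddSubgroup.mem_closure_singleton, ← hg]
    rfl
  refine ⟨m ^ g, zpow_pos hm _, fun a => ⟨fun ha => ?_, ?_⟩⟩
  · obtain ⟨k, rfl⟩ := h a ha
    obtain ⟨n, rfl⟩ := (hG k).1 ha
    exact ⟨n, by rw [← zpow_mul, smul_eq_mul, mul_comm]⟩
  · rintro ⟨n, rfl⟩
    rw [← zpow_mul, hG]
    exact ⟨n, by rw [smul_eq_mul, mul_comm]⟩

theorem nat_powers {m : ℚ} (hm : 0 < m) (S : Set ℚ) (hS : ∀ a : ℚ, a ∈ S ↔ ∃ k : ℤ, a = m ^ k) :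
    (∀ n : ℕ, 2 ≤ n → (n : ℚ) ∉ S) ∨
      ∃ M : ℕ, 2 ≤ M ∧ ∀ n : ℕ, 2 ≤ n → ((n : ℚ) ∈ S ↔ ∃ k : ℕ, 1 ≤ k ∧ n = M ^ k) := by
  by_cases hall : ∀ n : ℕ, 2 ≤ n → (n : ℚ) ∉ S
  · exact Or.inl hall
  right
  push Not at hall
  obtain ⟨n₀, hn₀, hn₀S⟩ := hall
  -- a generator greater than one
  obtain ⟨m', hm1, hS'⟩ : ∃ m' : ℚ, 1 < m' ∧ ∀ a : ℚ, a ∈ S ↔ ∃ k : ℤ, a = m' ^ k := by
    rcases lt_trichotomy m 1 with h | h | h
    · refine ⟨m⁻¹, (one_lt_inv₀ hm).2 h, fun a => ?_⟩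
      rw [hS]
      constructor
      · rintro ⟨k, rfl⟩
        exact ⟨-k, by rw [inv_zpow, zpow_neg, inv_inv]⟩
      · rintro ⟨k, rfl⟩
        exact ⟨-k, by rw [inv_zpow, zpow_neg]⟩
    · exfalso
      obtain ⟨k, hk⟩ := (hS _).1 hn₀S
      rw [h, one_zpow] at hk
      have : n₀ = 1 := by exact_mod_cast hk
      omega
    · exact ⟨m, h, hS⟩
  -- positive exponents
  have hpos : ∀ (n : ℕ) (k : ℤ), 2 ≤ n → (n : ℚ) = m' ^ k → ∃ j : ℕ, 1 ≤ j ∧ k = j := by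
    intro n k hn hk
    have hk0 : 0 < k := by
      by_contra hcon
      push Not at hcon
      have h1 : m' ^ k ≤ 1 := zpow_le_one_of_nonpos₀ hm1.le hcon
      rw [← hk] at h1
      have : n ≤ 1 := by exact_mod_cast h1
      omega
    exact ⟨k.toNat, by omega, by omega⟩
  obtain ⟨k₀, hk₀⟩ := (hS' _).1 hn₀S
  obtain ⟨j₀, hj₀, rfl⟩ := hpos n₀ k₀ hn₀ hk₀
  rw [zpow_natCast] at hk₀
  have hint : IsIntegral ℤ m' := by
    refine IsIntegral.of_pow (n := j₀) (by omega) ?_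
    rw [← hk₀]
    exact_mod_cast isIntegral_algebraMap (R := ℤ) (A := ℚ) (x := (n₀ : ℤ))
  obtain ⟨z, hz⟩ := IsIntegrallyClosed.isIntegral_iff.1 hint
  have hz' : (z : ℚ) = m' := by simpa using hz
  have hz1 : 1 < z := by
    have : (1 : ℚ) < z := by rw [hz']; exact hm1
    exact_mod_cast this
  have hM : ((z.toNat : ℕ) : ℚ) = m' := by
    rw [← hz']
    have : ((z.toNat : ℕ) : ℤ) = z := Int.toNat_of_nonneg (by omega)
    exact_mod_cast this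
  refine ⟨z.toNat, by omega, fun n hn => ⟨fun hnS => ?_, ?_⟩⟩
  · obtain ⟨k, hk⟩ := (hS' _).1 hnS
    obtain ⟨j, hj, rfl⟩ := hpos n k hn hk
    refine ⟨j, hj, ?_⟩
    rw [zpow_natCast, ← hM] at hk
    exact_mod_cast hk
  · rintro ⟨j, _, rfl⟩
    rw [hS']
    exact ⟨j, by rw [zpow_natCast, ← hM]; push_cast; rfl⟩

end Pool.Agent.L0h92.NF
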