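import Pool.Agent.L0h92.NF.Basic

set_option autoImplicit false

/-! Numbers with very good rational approximations. The series and the transcendence degree are
edited from `Pool/Agent/R701/LV/Liou.lean`. -/

namespace Pool.Agent.L0h92.NF

open Filter

/-- the sequence of exponents -/
def eL (k : ℕ) : ℕ := 2 ^ (k + 2).factorial

theorem eL_succ (k : ℕ) : eL (k + 1) = eL k ^ (k + 3) := by
  rw [eL, eL, ← pow_mul, show k + 1 + 2 = (k + 2) + 1 by ring, Nat.factorial_succ, mul_comm]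

theorem eL_lt (k : ℕ) : k + 2 < eL k := by
  rw [eL]
  exact lt_of_le_of_lt (Nat.self_le_factorial _) Nat.lt_two_pow_self

theorem eL_two (k : ℕ) : 2 ≤ eL k := by
  have := eL_lt k
  omega

theorem eL_step (k : ℕ) : eL k + 2 ≤ eL (k + 1) := by
  rw [eL_succ]
  have h := eL_two k
  calc eL k + 2 ≤ eL k ^ 3 := by nlinarith [pow_succ (eL k) 2, pow_two (eL k)]
    _ ≤ eL k ^ (k + 3) := Nat.pow_le_pow_right (by omega) (by omega)

theorem eL_pos (k : ℕ) : 1 ≤ eL k := by
  have := eL_two k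
  omega

theorem eL_add (k j : ℕ) : eL k + j ≤ eL (k + j) := by
  induction j with
  | zero => simp
  | succ j ih =>
    have h1 := eL_step (k + j)
    have h2 : k + (j + 1) = k + j + 1 := rfl
    rw [h2]
    omega

/-- the terms of the series -/
noncomputable def trL (A : Set ℕ) (k : ℕ) : ℝ := by
  classical exact if k ∈ A then (1 / 2 : ℝ) ^ eL k else 0

theorem trL_of_mem {A : Set ℕ} {k : ℕ} (h : k ∈ A) : trL A k = (1 / 2 : ℝ) ^ eL k := by
  rw [trL, if_pos h]

theorem trL_of_notMem {A : Set ℕ} {k : ℕ} (h : k ∉ A) : trL A k = 0 := by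
  rw [trL, if_neg h]

theorem trL_nonneg (A : Set ℕ) (k : ℕ) : 0 ≤ trL A k := by
  by_cases h : k ∈ A
  · rw [trL_of_mem h]; positivity
  · rw [trL_of_notMem h]

theorem trL_le (A : Set ℕ) (k : ℕ) : trL A k ≤ (1 / 2 : ℝ) ^ eL k := by
  by_cases h : k ∈ A
  · rw [trL_of_mem h]
  · rw [trL_of_notMem h]; positivity

theorem trL_le' (A : Set ℕ) (k j : ℕ) : trL A (j + k) ≤ (1 / 2 : ℝ) ^ eL k * (1 / 2) ^ j := by
  refine (trL_le A _).trans ?_
  rw [← pow_add, add_comm j k]
  exact pow_le_pow_of_le_one (by norm_num) (by norm_num) (eL_add k j)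

theorem trL_summable' (A : Set ℕ) (k : ℕ) : Summable (fun j => trL A (j + k)) :=
  Summable.of_nonneg_of_le (fun j => trL_nonneg A _) (fun j => trL_le' A k j)
    (summable_geometric_two.mul_left _)

theorem trL_summable (A : Set ℕ) : Summable (trL A) := trL_summable' A 0

theorem tailL_le (A : Set ℕ) (k : ℕ) : ∑' j, trL A (j + k) ≤ 2 * (1 / 2 : ℝ) ^ eL k := by
  have h1 := (trL_summable' A k).tsum_le_tsum (trL_le' A k)
    (summable_geometric_two.mul_left _)
  rw [tsum_mul_left, tsum_geometric_two] at h1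
  linarith

theorem tailL_nonneg (A : Set ℕ) (k : ℕ) : 0 ≤ ∑' j, trL A (j + k) :=
  tsum_nonneg fun _ => trL_nonneg A _

/-- the sum of the numbers `1 / qL k` over `k` in `A` -/
noncomputable def xiL (A : Set ℕ) : ℝ := ∑' k, trL A k

theorem xiL_split (A : Set ℕ) (k : ℕ) :
    xiL A = ∑ j ∈ Finset.range k, trL A j + ∑' j, trL A (j + k) :=
  ((trL_summable A).sum_add_tsum_nat_add k).symm

theorem xiL_lt {A B : Set ℕ} (k : ℕ) (hk : ∀ j < k, j ∈ A ↔ j ∈ B) (hA : k ∈ A) (hB : k ∉ B) :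
    xiL B < xiL A := by
  rw [xiL_split A (k + 1), xiL_split B (k + 1), Finset.sum_range_succ, Finset.sum_range_succ]
  have h1 : ∑ j ∈ Finset.range k, trL A j = ∑ j ∈ Finset.range k, trL B j := by
    refine Finset.sum_congr rfl fun j hj => ?_
    have hj' := hk j (Finset.mem_range.1 hj)
    by_cases h : j ∈ A
    · rw [trL_of_mem h, trL_of_mem (hj'.1 h)]
    · rw [trL_of_notMem h, trL_of_notMem (fun hb => h (hj'.2 hb))]
  rw [h1, trL_of_mem hA, trL_of_notMem hB]
  have h2 := tailL_le B (k + 1)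
  have h3 := tailL_nonneg A (k + 1)
  have h4 : (1 / 2 : ℝ) ^ eL (k + 1) ≤ (1 / 2 : ℝ) ^ (eL k + 2) :=
    pow_le_pow_of_le_one (by norm_num) (by norm_num) (eL_step k)
  have h5 : (1 / 2 : ℝ) ^ (eL k + 2) = (1 / 2 : ℝ) ^ eL k * (1 / 4) := by
    rw [pow_add]; norm_num
  have h6 : (0 : ℝ) < (1 / 2 : ℝ) ^ eL k := by positivity
  linarith

theorem xiL_injective : Function.Injective xiL := by
  classical
  intro A B hAB
  by_contra hne
  have hex : ∃ k, ¬ (k ∈ A ↔ k ∈ B) := by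
    by_contra hcon
    push Not at hcon
    exact hne (Set.ext hcon)
  set k := Nat.find hex with hk
  have h1 := Nat.find_spec hex
  have h2 : ∀ j < k, j ∈ A ↔ j ∈ B := fun j hj => by
    have := Nat.find_min hex hj
    push Not at this
    exact this
  rw [← hk] at h1
  by_cases hA : k ∈ A
  · have hB : k ∉ B := fun hB => h1 ⟨fun _ => hB, fun _ => hA⟩
    exact absurd hAB (xiL_lt k h2 hA hB).ne'
  · have hB : k ∈ B := by
      by_contra hB
      exact h1 ⟨fun h => absurd h hA, fun h => absurd h hB⟩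
    exact absurd hAB (xiL_lt k (fun j hj => (h2 j hj).symm) hB hA).ne

theorem tendsto_eL : Tendsto (fun k => (eL k : ℝ)) atTop atTop := by
  refine tendsto_atTop_mono (fun k => ?_) tendsto_natCast_atTop_atTop
  exact_mod_cast (by have := eL_lt k; omega : k ≤ eL k)

theorem xiL_apr (κ : ℝ) (A : Set ℕ) : Apr κ (fun k => (eL k : ℝ)) (xiL A) := by
  classical
  refine ⟨1, fun E => ?_⟩
  filter_upwards [eventually_ge_atTop ⌈κ⌉₊, eventually_ge_atTop ⌈2 * (|E| + 1)⌉₊] with k hk1 hk2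
  have hκk : κ ≤ k := (Nat.le_ceil _).trans (by exact_mod_cast hk1)
  have hEk : 2 * (|E| + 1) ≤ k := (Nat.le_ceil _).trans (by exact_mod_cast hk2)
  obtain ⟨u, hu⟩ : ∃ u : ℤ, u = ∑ j ∈ (Finset.range (k + 1)).filter (· ∈ A),
    2 ^ (eL k - eL j) := ⟨_, rfl⟩
  have hEm : ∀ j ≤ k, eL j ≤ eL k := by
    intro j hj
    obtain ⟨i, rfl⟩ := Nat.exists_eq_add_of_le hj
    exact (Nat.le_add_right _ _).trans (eL_add j i)
  have h1 : (u : ℝ) / (2 : ℝ) ^ eL k = ∑ j ∈ Finset.range (k + 1), trL A j := by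
    rw [hu]
    push_cast
    rw [Finset.sum_filter, Finset.sum_div]
    refine Finset.sum_congr rfl fun j hj => ?_
    have hj' : eL j ≤ eL k := hEm j (Nat.lt_succ_iff.1 (Finset.mem_range.1 hj))
    by_cases h : j ∈ A
    · rw [if_pos h, trL_of_mem h, one_div, inv_pow, div_eq_iff (by positivity),
        inv_mul_eq_div, eq_div_iff (by positivity), ← pow_add, Nat.sub_add_cancel hj']
    · rw [if_neg h, trL_of_notMem h, zero_div]
  have hu0 : 0 ≤ (u : ℝ) / (2 : ℝ) ^ eL k := by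
    rw [h1]
    exact Finset.sum_nonneg fun j _ => trL_nonneg A j
  have hu1 : (u : ℝ) / (2 : ℝ) ^ eL k ≤ 1 := by
    rw [h1]
    have h2 := xiL_split A (k + 1)
    have h3 := tailL_nonneg A (k + 1)
    have h4 : xiL A ≤ 2 * (1 / 2 : ℝ) ^ eL 0 := tailL_le A 0
    have h5 : (1 / 2 : ℝ) ^ eL 0 ≤ (1 / 2 : ℝ) ^ 2 :=
      pow_le_pow_of_le_one (by norm_num) (by norm_num) (eL_two 0)
    norm_num at h5
    linarith
  have hexp : (2 : ℝ) ^ eL k ≤ Real.exp (1 * (eL k : ℝ)) := by
    rw [one_mul]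
    calc (2 : ℝ) ^ eL k ≤ Real.exp 1 ^ eL k := by
          refine pow_le_pow_left₀ (by norm_num) ?_ _
          have := Real.add_one_le_exp (1 : ℝ)
          linarith
      _ = Real.exp (eL k : ℝ) := by rw [← Real.exp_nat_mul, mul_one]
  refine ⟨((u : ℤ) : ℚ) / ((2 ^ eL k : ℤ) : ℚ), HtLe.of_div _ _ (by positivity) ?_ ?_, ?_⟩
  · have h6 : |(u : ℝ)| = (u : ℝ) / (2 : ℝ) ^ eL k * (2 : ℝ) ^ eL k := by
      rw [div_mul_cancel₀ _ (by positivity), abs_of_nonneg]
      rw [div_nonneg_iff] at hu0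
      rcases hu0 with h | h
      · exact h.1
      · exact absurd h.2 (not_le.2 (by positivity))
    rw [h6]
    refine le_trans ?_ hexp
    exact mul_le_of_le_one_left (by positivity) hu1
  · push_cast
    rw [abs_of_pos (by positivity)]
    exact hexp
  · push_cast
    rw [h1, xiL_split A (k + 1), add_sub_cancel_left, abs_of_nonneg (tailL_nonneg A _)]
    refine (tailL_le A (k + 1)).trans ?_
    have he1 : (1 : ℝ) ≤ (eL k : ℝ) := by exact_mod_cast (by have := eL_two k; omega : 1 ≤ eL k)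
    have hek : (k : ℝ) ≤ (eL k : ℝ) := by exact_mod_cast (by have := eL_lt k; omega : k ≤ eL k)
    have hpow : (eL k : ℝ) ^ κ ≤ (eL k : ℝ) ^ (k + 2) := by
      rw [← Real.rpow_natCast]
      refine Real.rpow_le_rpow_of_exponent_le he1 ?_
      push_cast
      linarith
    have hpow1 : (1 : ℝ) ≤ (eL k : ℝ) ^ (k + 2) := one_le_pow₀ he1
    have hN : (eL (k + 1) : ℝ) = (eL k : ℝ) ^ (k + 2) * (eL k : ℝ) := by
      rw [eL_succ]
      push_cast
      rw [← pow_succ]
    have hkey : E * (eL k : ℝ) ^ κ + 1 ≤ (eL (k + 1) : ℝ) / 2 := by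
      have h7 : E * (eL k : ℝ) ^ κ ≤ |E| * (eL k : ℝ) ^ (k + 2) := by
        have h8 : 0 ≤ (eL k : ℝ) ^ κ := by positivity
        calc E * (eL k : ℝ) ^ κ ≤ |E| * (eL k : ℝ) ^ κ :=
              mul_le_mul_of_nonneg_right (le_abs_self E) h8
          _ ≤ _ := mul_le_mul_of_nonneg_left hpow (abs_nonneg E)
      rw [hN]
      have h9 : (eL k : ℝ) ^ (k + 2) * (2 * (|E| + 1)) ≤ (eL k : ℝ) ^ (k + 2) * (eL k : ℝ) :=
        mul_le_mul_of_nonneg_left (hEk.trans hek) (by linarith)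
      linarith
    have hhalf : (1 / 2 : ℝ) ^ eL (k + 1) ≤ Real.exp (-((eL (k + 1) : ℝ) / 2)) := by
      have h10 : (1 / 2 : ℝ) ≤ Real.exp (-(1 / 2)) := by
        have := Real.add_one_le_exp (-(1 / 2) : ℝ)
        linarith
      calc (1 / 2 : ℝ) ^ eL (k + 1) ≤ Real.exp (-(1 / 2)) ^ eL (k + 1) :=
            pow_le_pow_left₀ (by norm_num) h10 _
        _ = Real.exp (-((eL (k + 1) : ℝ) / 2)) := by
            rw [← Real.exp_nat_mul]
            congr 1
            ring
    have h11 : (2 : ℝ) ≤ Real.exp 1 := by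
      have := Real.add_one_le_exp (1 : ℝ)
      linarith
    calc 2 * (1 / 2 : ℝ) ^ eL (k + 1)
        ≤ Real.exp 1 * Real.exp (-((eL (k + 1) : ℝ) / 2)) :=
          mul_le_mul h11 hhalf (by positivity) (Real.exp_pos _).le
      _ = Real.exp (1 + -((eL (k + 1) : ℝ) / 2)) := (Real.exp_add _ _).symm
      _ ≤ _ := Real.exp_le_exp.2 (by linarith)

theorem trdeg_eq (L : IntermediateField ℚ ℝ) (hL : ∀ A, xiL A ∈ L) :
    Algebra.trdeg ℚ L = Cardinal.continuum := by
  have h1 : Cardinal.mk L = Cardinal.continuum := by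
    apply le_antisymm
    · rw [← Cardinal.mk_real]
      exact Cardinal.mk_le_of_injective Subtype.val_injective
    · have h2 : Cardinal.mk (Set ℕ) = Cardinal.continuum := by simp
      rw [← h2]
      refine Cardinal.mk_le_of_injective (f := fun A => ⟨_, hL A⟩) fun A B hst => ?_
      exact xiL_injective (congrArg Subtype.val hst)
  obtain ⟨ι, x, hx⟩ := exists_isTranscendenceBasis' ℚ L
  rw [← hx.cardinalMk_eq_trdeg]
  have hle : Cardinal.mk ι ≤ Cardinal.continuum := by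
    rw [← h1]
    exact Cardinal.mk_le_of_injective hx.1.injective
  refine le_antisymm hle ?_
  by_contra hlt
  push Not at hlt
  have h3 : Cardinal.mk (Algebra.adjoin ℚ (Set.range x)) < Cardinal.continuum := by
    rw [← Cardinal.mk_congr hx.1.aevalEquiv.toEquiv]
    refine (MvPolynomial.cardinalMk_le_max_lift).trans_lt ?_
    simp only [Cardinal.lift_uzero, Cardinal.mkRat, Cardinal.lift_id]
    rw [max_lt_iff, max_lt_iff]
    exact ⟨⟨Cardinal.aleph0_lt_continuum, hlt⟩, Cardinal.aleph0_lt_continuum⟩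
  have h4 : Cardinal.mk L ≤ max (Cardinal.mk (Algebra.adjoin ℚ (Set.range x))) Cardinal.aleph0 := by
    have := hx.isAlgebraic
    exact Algebra.IsAlgebraic.cardinalMk_le_max _ _
  rw [h1] at h4
  exact absurd h4 (not_le.2 (max_lt h3 Cardinal.aleph0_lt_continuum))

/-- numbers with arbitrarily good approximations are in one of the fields -/
theorem veryWell_apr {κ ξ : ℝ} (hξ : ∀ N : ℕ, ∃ (p : ℤ) (q : ℕ), N ≤ q ∧
    |ξ - p / q| ≤ Real.exp (-(N * Real.log q ^ κ))) :
    ∃ T : ℕ → ℝ, Tendsto T atTop atTop ∧ Apr κ T ξ := by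
  choose p q hq hpq using hξ
  refine ⟨fun N => Real.log (q (N + 3)), ?_, 2, fun E => ?_⟩
  · refine tendsto_atTop_mono (fun N => ?_) (Real.tendsto_log_atTop.comp
      tendsto_natCast_atTop_atTop)
    have h1 := hq (N + 3)
    by_cases h0 : N = 0
    · subst h0
      simp only [Function.comp_apply, Nat.cast_zero, Real.log_zero]
      exact Real.log_natCast_nonneg _
    · refine Real.log_le_log (by exact_mod_cast Nat.pos_of_ne_zero h0) ?_
      exact_mod_cast (by omega : N ≤ q (N + 3))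
  · filter_upwards [eventually_ge_atTop ⌈|ξ| + 1⌉₊, eventually_ge_atTop ⌈E⌉₊] with N h1 h2
    have h1' : |ξ| + 1 ≤ N := (Nat.le_ceil _).trans (by exact_mod_cast h1)
    have h2' : E ≤ N := (Nat.le_ceil _).trans (by exact_mod_cast h2)
    have hq3 := hq (N + 3)
    have hpq3 := hpq (N + 3)
    obtain ⟨Q, hQ⟩ : ∃ Q, Q = q (N + 3) := ⟨_, rfl⟩
    obtain ⟨P, hP⟩ : ∃ P, P = p (N + 3) := ⟨_, rfl⟩
    rw [← hQ, ← hP] at hpq3
    rw [← hQ] at hq3 ⊢
    have hQ1 : (N : ℝ) + 3 ≤ Q := by exact_mod_cast hq3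
    have hN0 : (0 : ℝ) ≤ N := Nat.cast_nonneg _
    have hQ0 : (0 : ℝ) < Q := by linarith
    have hlog : 0 ≤ Real.log Q ^ κ := Real.rpow_nonneg (Real.log_nonneg (by linarith)) _
    have herr1 : |ξ - P / Q| ≤ 1 := by
      refine hpq3.trans (Real.exp_le_one_iff.2 ?_)
      have : 0 ≤ (((N + 3 : ℕ) : ℝ)) * Real.log Q ^ κ := by positivity
      linarith
    have hexp : Real.exp (2 * Real.log Q) = (Q : ℝ) * Q := by
      rw [two_mul, Real.exp_add, Real.exp_log hQ0]
    refine ⟨(P : ℚ) / ((Q : ℤ) : ℚ), HtLe.of_div _ _ ?_ ?_ ?_, ?_⟩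
    · have : Q ≠ 0 := by omega
      exact_mod_cast this
    · rw [hexp]
      have h3 : |(P : ℝ) / Q| ≤ Q := by
        have e : (P : ℝ) / Q = ξ - (ξ - P / Q) := by ring
        calc |(P : ℝ) / Q| = |ξ - (ξ - P / Q)| := by rw [← e]
          _ ≤ |ξ| + |ξ - P / Q| := abs_sub _ _
          _ ≤ Q := by linarith
      rw [abs_div, div_le_iff₀ (abs_pos.2 hQ0.ne'), abs_of_pos hQ0] at h3
      exact h3
    · rw [hexp]
      push_cast
      rw [abs_of_pos hQ0]
      nlinarith
    · push_cast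
      refine hpq3.trans (Real.exp_le_exp.2 ?_)
      have : E * Real.log Q ^ κ ≤ (((N + 3 : ℕ) : ℝ)) * Real.log Q ^ κ := by
        refine mul_le_mul_of_nonneg_right ?_ hlog
        push_cast
        linarith
      linarith

end Pool.Agent.L0h92.NF
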